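import Mathlib

set_option autoImplicit false

/-! Definability calculus over the language of rings. -/

namespace Pool.Agent.H412R3.Deg

open FirstOrder FirstOrder.Language FirstOrder.Ring

section toolkit

variable {M : Type*} [CommRing M] [CompatibleRing M] (A : Set M)

/-- a predicate of assignments given by a formula with parameters in `A` -/
def Dn (P : (ℕ → M) → Prop) : Prop :=
  ∃ φ : Language.ring.Formula (A ⊕ ℕ), ∀ v : ℕ → M, φ.Realize (Sum.elim (fun a : A => (a : M)) v) ↔ P v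

/-- a function of assignments given by a term with parameters in `A` -/
def Tn (f : (ℕ → M) → M) : Prop :=
  ∃ t : Language.ring.Term (A ⊕ ℕ), ∀ v : ℕ → M, t.realize (Sum.elim (fun a : A => (a : M)) v) = f v

variable {A}

theorem Tn.var (i : ℕ) : Tn A (fun v => v i) := ⟨Term.var (Sum.inr i), fun _ => rfl⟩

theorem Tn.par {a : M} (ha : a ∈ A) : Tn A (fun _ => a) := ⟨Term.var (Sum.inl ⟨a, ha⟩), fun _ => rfl⟩

theorem Tn.zero : Tn A (fun _ => (0 : M)) := ⟨0, fun _ => realize_zero _⟩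

theorem Tn.one : Tn A (fun _ => (1 : M)) := ⟨1, fun _ => realize_one _⟩

theorem Tn.add {f g : (ℕ → M) → M} (hf : Tn A f) (hg : Tn A g) : Tn A (fun v => f v + g v) := by
  obtain ⟨s, hs⟩ := hf
  obtain ⟨t, ht⟩ := hg
  exact ⟨s + t, fun v => by rw [realize_add, hs, ht]⟩

theorem Tn.mul {f g : (ℕ → M) → M} (hf : Tn A f) (hg : Tn A g) : Tn A (fun v => f v * g v) := by
  obtain ⟨s, hs⟩ := hf
  obtain ⟨t, ht⟩ := hg
  exact ⟨s * t, fun v => by rw [realize_mul, hs, ht]⟩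

theorem Tn.sub {f g : (ℕ → M) → M} (hf : Tn A f) (hg : Tn A g) : Tn A (fun v => f v - g v) := by
  obtain ⟨s, hs⟩ := hf
  obtain ⟨t, ht⟩ := hg
  exact ⟨s + -t, fun v => by rw [realize_add, realize_neg, hs, ht]; exact (sub_eq_add_neg _ _).symm⟩

theorem Tn.lift {f : (ℕ → M) → M} (hf : Tn A f) : Tn A (fun v => f (fun i => v (i + 1))) := by
  obtain ⟨s, hs⟩ := hf
  refine ⟨s.relabel (Sum.map id (fun i => i + 1)), fun v => ?_⟩
  rw [Term.realize_relabel]
  refine Eq.trans ?_ (hs (fun i => v (i + 1)))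
  congr 1
  funext a
  rcases a with a | i <;> rfl

theorem Dn.eq {f g : (ℕ → M) → M} (hf : Tn A f) (hg : Tn A g) : Dn A (fun v => f v = g v) := by
  obtain ⟨s, hs⟩ := hf
  obtain ⟨t, ht⟩ := hg
  refine ⟨s.equal t, fun v => ?_⟩
  rw [Formula.realize_equal, hs, ht]

theorem Dn.not {P : (ℕ → M) → Prop} (h : Dn A P) : Dn A (fun v => ¬ P v) := by
  obtain ⟨φ, hφ⟩ := h
  exact ⟨φ.not, fun v => by rw [Formula.realize_not, hφ]⟩

theorem Dn.and {P Q : (ℕ → M) → Prop} (h : Dn A P) (h' : Dn A Q) : Dn A (fun v => P v ∧ Q v) := by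
  obtain ⟨φ, hφ⟩ := h
  obtain ⟨ψ, hψ⟩ := h'
  exact ⟨φ ⊓ ψ, fun v => by rw [Formula.realize_inf, hφ, hψ]⟩

theorem Dn.or {P Q : (ℕ → M) → Prop} (h : Dn A P) (h' : Dn A Q) : Dn A (fun v => P v ∨ Q v) := by
  obtain ⟨φ, hφ⟩ := h
  obtain ⟨ψ, hψ⟩ := h'
  exact ⟨φ ⊔ ψ, fun v => by rw [Formula.realize_sup, hφ, hψ]⟩

theorem Dn.imp {P Q : (ℕ → M) → Prop} (h : Dn A P) (h' : Dn A Q) : Dn A (fun v => P v → Q v) := by
  obtain ⟨φ, hφ⟩ := h
  obtain ⟨ψ, hψ⟩ := h'
  exact ⟨φ.imp ψ, fun v => by rw [Formula.realize_imp, hφ, hψ]⟩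

theorem Dn.iff {P Q : (ℕ → M) → Prop} (h : Dn A P) (h' : Dn A Q) : Dn A (fun v => P v ↔ Q v) := by
  obtain ⟨φ, hφ⟩ := (h.imp h').and (h'.imp h)
  exact ⟨φ, fun v => (hφ v).trans ⟨fun h => ⟨h.1, h.2⟩, fun h => ⟨h.1, h.2⟩⟩⟩

theorem Dn.ex {Q : M → (ℕ → M) → Prop} (h : Dn A (fun v => Q (v 0) (fun i => v (i + 1)))) :
    Dn A (fun v => ∃ x, Q x v) := by
  obtain ⟨φ, hφ⟩ := h
  let g : A ⊕ ℕ → (A ⊕ ℕ) ⊕ Fin 1 := fun a => match a with
    | Sum.inl a => Sum.inl (Sum.inl a)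
    | Sum.inr 0 => Sum.inr 0
    | Sum.inr (i + 1) => Sum.inl (Sum.inr i)
  refine ⟨(φ.relabel g).iExs (Fin 1), fun v => ?_⟩
  rw [Formula.realize_iExs]
  have key : ∀ i : Fin 1 → M, (φ.relabel g).Realize
      (Sum.elim (Sum.elim (fun a : A => (a : M)) v) i) ↔ Q (i 0) v := by
    intro i
    rw [Formula.realize_relabel]
    let w : ℕ → M := fun j => match j with
      | 0 => i 0
      | j + 1 => v j
    have e : (Sum.elim (Sum.elim (fun a : A => (a : M)) v) i) ∘ g =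
        Sum.elim (fun a : A => (a : M)) w := by
      funext a
      rcases a with a | j
      · rfl
      · cases j <;> rfl
    rw [e, hφ w]
  constructor
  · rintro ⟨i, hi⟩
    exact ⟨i 0, (key i).1 hi⟩
  · rintro ⟨x, hx⟩
    exact ⟨fun _ => x, (key _).2 hx⟩

theorem Dn.all {Q : M → (ℕ → M) → Prop} (h : Dn A (fun v => Q (v 0) (fun i => v (i + 1)))) :
    Dn A (fun v => ∀ x, Q x v) := by
  have h1 : Dn A (fun v => ∃ x, ¬ Q x v) := Dn.ex (Q := fun x v => ¬ Q x v) h.not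
  obtain ⟨φ, hφ⟩ := h1.not
  refine ⟨φ, fun v => (hφ v).trans ?_⟩
  push Not
  rfl

/-- definability of a binary relation in the sense of Mathlib -/
theorem Dn.definable₂ {s : Set (M × M)} (h : Dn A (fun v => (v 0, v 1) ∈ s)) :
    A.Definable₂ Language.ring s := by
  unfold Set.Definable₂
  rw [Set.definable_iff_exists_formula_sum]
  obtain ⟨φ, hφ⟩ := h
  refine ⟨φ.relabel (Sum.map id (fun i => if i = 0 then 0 else 1)), ?_⟩
  ext x
  simp only [Set.mem_ofPred_eq]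
  rw [Formula.realize_relabel]
  have e : (Sum.elim (fun a : A => (a : M)) x) ∘ (Sum.map id (fun i : ℕ => if i = 0 then 0 else 1)) =
      Sum.elim (fun a : A => (a : M)) (fun i : ℕ => x (if i = 0 then 0 else 1)) := by
    funext a
    rcases a with a | i <;> rfl
  rw [e, hφ]
  rfl

end toolkit

end Pool.Agent.H412R3.Deg
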