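import Pool.Agent.H412R3.Deg.Basic

set_option autoImplicit false

/-! The relation of equal degree is definable in `F[X]`, `F` a field of characteristic zero. -/

namespace Pool.Agent.H412R3.Deg

open FirstOrder FirstOrder.Language FirstOrder.Ring Polynomial

section preds

variable {M : Type*} [CommRing M] (t : M)

/-- units and zero -/
def IsConst (c : M) : Prop := c = 0 ∨ ∃ d, c * d = 1

/-- divisibility -/
def Dv (a b : M) : Prop := ∃ c, b = a * c

/-- powers of `t` -/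
def Pw (x : M) : Prop := (∀ y, Dv y x → (∃ d, y * d = 1) ∨ Dv t y) ∧ Dv (t - 1) (x - 1)

/-- natural numbers -/
def Nt (c : M) : Prop := IsConst c ∧ ∃ x, Pw t x ∧ ∃ y, x - 1 = (t - 1) * y ∧ Dv (t - 1) (y - c)

/-- `v` is the value of `f` at `n` -/
def Ev (f n v : M) : Prop := IsConst v ∧ Dv (t - n) (f - v)

/-- `i < j` -/
def Lt' (i j : M) : Prop := ∃ k, Nt t k ∧ j = i + k + 1

/-- one step of the Horner scheme at `m`: `s (j + 1) = m * s j + a (j + 1)` -/
def Stp (a s m j : M) : Prop :=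
  ∃ p, Ev t s j p ∧ ∃ r, Ev t a (j + 1) r ∧ Ev t s (j + 1) (m * p + r)

/-- the degree is at most `n` -/
def Dle (f n : M) : Prop :=
  ∃ a, ∀ m, Nt t m → ∃ s, (∃ u, Ev t s 0 u ∧ Ev t a 0 u) ∧
    (∀ j, Nt t j → Lt' t j n → Stp t a s m j) ∧ ∃ w, Ev t s n w ∧ Ev t f m w

/-- equal degrees -/
def Rd (f g : M) : Prop := (f = 0 ↔ g = 0) ∧ ∀ n, Nt t n → (Dle t f n ↔ Dle t g n)

variable {t} [CompatibleRing M] {A : Set M}

theorem dn_const {f : (ℕ → M) → M} (hf : Tn A f) : Dn A (fun v => IsConst (f v)) :=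
  (Dn.eq hf .zero).or (Dn.ex (Q := fun x v => f v * x = 1) (Dn.eq (hf.lift.mul (.var 0)) .one))

theorem dn_dv {f g : (ℕ → M) → M} (hf : Tn A f) (hg : Tn A g) : Dn A (fun v => Dv (f v) (g v)) :=
  Dn.ex (Q := fun x v => g v = f v * x) (Dn.eq hg.lift (hf.lift.mul (.var 0)))

theorem dn_pw (ht : t ∈ A) {f : (ℕ → M) → M} (hf : Tn A f) : Dn A (fun v => Pw t (f v)) :=
  (Dn.all (Q := fun y v => Dv y (f v) → (∃ d, y * d = 1) ∨ Dv t y)
    ((dn_dv (.var 0) hf.lift).imp
      ((Dn.ex (Q := fun d v => v 0 * d = 1) (Dn.eq ((Tn.var 1).mul (.var 0)) .one)).or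
        (dn_dv (.par ht) (.var 0))))).and (dn_dv ((Tn.par ht).sub .one) (hf.sub .one))

theorem dn_nt (ht : t ∈ A) {f : (ℕ → M) → M} (hf : Tn A f) : Dn A (fun v => Nt t (f v)) :=
  (dn_const hf).and (Dn.ex (Q := fun x v => Pw t x ∧ ∃ y, x - 1 = (t - 1) * y ∧
      Dv (t - 1) (y - f v)) ((dn_pw ht (.var 0)).and
    (Dn.ex (Q := fun y v => v 0 - 1 = (t - 1) * y ∧ Dv (t - 1) (y - f (fun i => v (i + 1))))
      ((Dn.eq ((Tn.var 1).sub .one) (((Tn.par ht).sub .one).mul (.var 0))).and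
        (dn_dv ((Tn.par ht).sub .one) ((Tn.var 0).sub hf.lift.lift))))))

theorem dn_ev (ht : t ∈ A) {f n w : (ℕ → M) → M} (hf : Tn A f) (hn : Tn A n) (hw : Tn A w) :
    Dn A (fun v => Ev t (f v) (n v) (w v)) :=
  (dn_const hw).and (dn_dv ((Tn.par ht).sub hn) (hf.sub hw))

theorem dn_lt (ht : t ∈ A) {f g : (ℕ → M) → M} (hf : Tn A f) (hg : Tn A g) :
    Dn A (fun v => Lt' t (f v) (g v)) :=
  Dn.ex (Q := fun k v => Nt t k ∧ g v = f v + k + 1)
    ((dn_nt ht (.var 0)).and (Dn.eq hg.lift ((hf.lift.add (.var 0)).add .one)))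

theorem dn_stp (ht : t ∈ A) {a s m j : (ℕ → M) → M} (ha : Tn A a) (hs : Tn A s) (hm : Tn A m)
    (hj : Tn A j) : Dn A (fun v => Stp t (a v) (s v) (m v) (j v)) :=
  Dn.ex (Q := fun p v => Ev t (s v) (j v) p ∧ ∃ r, Ev t (a v) (j v + 1) r ∧
      Ev t (s v) (j v + 1) (m v * p + r))
    ((dn_ev ht hs.lift hj.lift (.var 0)).and
      (Dn.ex (Q := fun r v => Ev t (a (fun i => v (i + 1))) (j (fun i => v (i + 1)) + 1) r ∧
        Ev t (s (fun i => v (i + 1))) (j (fun i => v (i + 1)) + 1)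
          (m (fun i => v (i + 1)) * v 0 + r))
        ((dn_ev ht ha.lift.lift (hj.lift.lift.add .one) (.var 0)).and
          (dn_ev ht hs.lift.lift (hj.lift.lift.add .one)
            ((hm.lift.lift.mul (.var 1)).add (.var 0))))))

theorem dn_dle (ht : t ∈ A) {f n : (ℕ → M) → M} (hf : Tn A f) (hn : Tn A n) :
    Dn A (fun v => Dle t (f v) (n v)) := by
  refine Dn.ex (Q := fun a v => ∀ m, Nt t m → ∃ s, (∃ u, Ev t s 0 u ∧ Ev t a 0 u) ∧
    (∀ j, Nt t j → Lt' t j (n v) → Stp t a s m j) ∧ ∃ w, Ev t s (n v) w ∧ Ev t (f v) m w) ?_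
  refine Dn.all (Q := fun m v => Nt t m → ∃ s, (∃ u, Ev t s 0 u ∧ Ev t (v 0) 0 u) ∧
    (∀ j, Nt t j → Lt' t j (n (fun i => v (i + 1))) → Stp t (v 0) s m j) ∧
      ∃ w, Ev t s (n (fun i => v (i + 1))) w ∧ Ev t (f (fun i => v (i + 1))) m w) ?_
  refine (dn_nt ht (.var 0)).imp ?_
  refine Dn.ex (Q := fun s v => (∃ u, Ev t s 0 u ∧ Ev t (v 1) 0 u) ∧
    (∀ j, Nt t j → Lt' t j (n (fun i => v (i + 2))) → Stp t (v 1) s (v 0) j) ∧
      ∃ w, Ev t s (n (fun i => v (i + 2))) w ∧ Ev t (f (fun i => v (i + 2))) (v 0) w) ?_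
  refine Dn.and ?_ (Dn.and ?_ ?_)
  · exact Dn.ex (Q := fun u v => Ev t (v 0) 0 u ∧ Ev t (v 2) 0 u)
      ((dn_ev ht (.var 1) .zero (.var 0)).and (dn_ev ht (.var 3) .zero (.var 0)))
  · exact Dn.all (Q := fun j v => Nt t j → Lt' t j (n (fun i => v (i + 3))) →
      Stp t (v 2) (v 0) (v 1) j)
      ((dn_nt ht (.var 0)).imp ((dn_lt ht (.var 0) hn.lift.lift.lift.lift).imp
        (dn_stp ht (.var 3) (.var 1) (.var 2) (.var 0))))
  · exact Dn.ex (Q := fun w v => Ev t (v 0) (n (fun i => v (i + 3))) w ∧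
      Ev t (f (fun i => v (i + 3))) (v 1) w)
      ((dn_ev ht (.var 1) hn.lift.lift.lift.lift (.var 0)).and
        (dn_ev ht hf.lift.lift.lift.lift (.var 2) (.var 0)))

theorem dn_rd (ht : t ∈ A) {f g : (ℕ → M) → M} (hf : Tn A f) (hg : Tn A g) :
    Dn A (fun v => Rd t (f v) (g v)) :=
  ((Dn.eq hf .zero).iff (Dn.eq hg .zero)).and
    (Dn.all (Q := fun n v => Nt t n → (Dle t (f v) n ↔ Dle t (g v) n))
      ((dn_nt ht (.var 0)).imp ((dn_dle ht hf.lift (.var 0)).iff (dn_dle ht hg.lift (.var 0)))))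

end preds

section sem

variable {F : Type*} [Field F]

theorem isConst_iff (c : F[X]) : IsConst c ↔ ∃ a : F, c = C a := by
  unfold IsConst
  constructor
  · rintro (h | ⟨d, hd⟩)
    · exact ⟨0, by rw [h, C_0]⟩
    · obtain ⟨a, _, ha⟩ := Polynomial.isUnit_iff.1 (IsUnit.of_mul_eq_one d hd)
      exact ⟨a, ha.symm⟩
  · rintro ⟨a, rfl⟩
    by_cases h : a = 0
    · left; rw [h, C_0]
    · right
      exact ⟨C a⁻¹, by rw [← C_mul, mul_inv_cancel₀ h, C_1]⟩

theorem dv_iff (a b : F[X]) : Dv a b ↔ a ∣ b := Iff.rfl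

theorem pw_iff (x : F[X]) : Pw X x ↔ ∃ n : ℕ, x = X ^ n := by
  unfold Pw
  simp only [dv_iff]
  have h1 : (X - 1 : F[X]) = X - C 1 := by rw [C_1]
  constructor
  · rintro ⟨h, h2⟩
    have hx : x ≠ 0 := by
      rintro rfl
      rcases h (X - 1) (dvd_zero _) with ⟨d, hd⟩ | h3
      · have h4 : IsUnit (X - C 1 : F[X]) := by rw [← h1]; exact IsUnit.of_mul_eq_one d hd
        exact Polynomial.not_isUnit_X_sub_C 1 h4
      · rw [X_dvd_iff] at h3
        simp at h3
    -- extract the power of `X`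
    obtain ⟨n, q, hq, hxq⟩ : ∃ (n : ℕ) (q : F[X]), ¬ X ∣ q ∧ x = X ^ n * q := by
      obtain ⟨n, q, hq, hxq⟩ := WfDvdMonoid.max_power_factor hx (Polynomial.irreducible_X (R := F))
      exact ⟨n, q, hq, hxq⟩
    rcases h q ⟨X ^ n, by rw [hxq, mul_comm]⟩ with ⟨d, hd⟩ | h3
    · obtain ⟨a, _, ha⟩ := Polynomial.isUnit_iff.1 (IsUnit.of_mul_eq_one d hd)
      refine ⟨n, ?_⟩
      rw [h1, dvd_iff_isRoot, IsRoot.def, hxq, ← ha] at h2
      simp only [eval_sub, eval_mul, eval_pow, eval_X, one_pow, eval_C, one_mul, eval_one] at h2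
      have h4 : a = 1 := sub_eq_zero.1 h2
      rw [hxq, ← ha, h4, C_1, mul_one]
    · exact absurd h3 hq
  · rintro ⟨n, rfl⟩
    refine ⟨fun y hy => ?_, ?_⟩
    · obtain ⟨i, hi, hy'⟩ := (dvd_prime_pow (Polynomial.prime_X (R := F)) n).1 hy
      rcases Nat.eq_zero_or_pos i with h0 | h0
      · left
        rw [h0, pow_zero] at hy'
        obtain ⟨u, hu⟩ := hy'
        exact ⟨u, hu⟩
      · right
        exact (dvd_pow_self X h0.ne').trans hy'.symm.dvd
    · rw [h1, dvd_iff_isRoot, IsRoot.def]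
      simp

theorem nt_iff (c : F[X]) : Nt X c ↔ ∃ n : ℕ, c = C (n : F) := by
  unfold Nt
  rw [isConst_iff]
  have h1 : (X - 1 : F[X]) = X - C 1 := by rw [C_1]
  have key : ∀ (n : ℕ) (y : F[X]), X ^ n - 1 = (X - 1) * y → y.eval 1 = n := by
    intro n y hy
    have h2 : (X ^ n - 1 : F[X]) = (X - 1) * ∑ i ∈ Finset.range n, X ^ i :=
      (mul_geom_sum X n).symm
    have h3 : y = ∑ i ∈ Finset.range n, X ^ i := by
      have h4 : (X - 1 : F[X]) ≠ 0 := by rw [h1]; exact X_sub_C_ne_zero 1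
      exact mul_left_cancel₀ h4 (hy.symm.trans h2)
    rw [h3, eval_finsetSum]
    simp
  constructor
  · rintro ⟨⟨a, rfl⟩, x, hx, y, hy, hd⟩
    obtain ⟨n, rfl⟩ := (pw_iff x).1 hx
    refine ⟨n, ?_⟩
    have h2 := key n y hy
    rw [dv_iff, h1, dvd_iff_isRoot, IsRoot.def, eval_sub, eval_C, h2] at hd
    rw [← sub_eq_zero.1 hd]
  · rintro ⟨n, rfl⟩
    refine ⟨⟨_, rfl⟩, X ^ n, (pw_iff _).2 ⟨n, rfl⟩, ∑ i ∈ Finset.range n, X ^ i,
      (mul_geom_sum X n).symm, ?_⟩
    rw [dv_iff, h1, dvd_iff_isRoot, IsRoot.def, eval_sub, eval_C,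
      key n _ (mul_geom_sum X n).symm, sub_self]

theorem ev_iff (f v : F[X]) (a : F) : Ev X f (C a) v ↔ v = C (f.eval a) := by
  unfold Ev
  rw [isConst_iff, dv_iff]
  constructor
  · rintro ⟨⟨b, rfl⟩, h⟩
    rw [dvd_iff_isRoot, IsRoot.def, eval_sub, eval_C] at h
    rw [sub_eq_zero.1 h]
  · rintro rfl
    refine ⟨⟨_, rfl⟩, ?_⟩
    rw [dvd_iff_isRoot, IsRoot.def, eval_sub, eval_C, sub_self]

variable [CharZero F]

theorem lt_iff (i j : ℕ) : Lt' X (C (i : F)) (C (j : F)) ↔ i < j := by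
  unfold Lt'
  constructor
  · rintro ⟨k, hk, h⟩
    obtain ⟨n, rfl⟩ := (nt_iff k).1 hk
    have h2 : (C (j : F)) = C (((i + n + 1 : ℕ) : F)) := by
      rw [h]; push_cast [C_add, C_1]; rfl
    have h3 : (j : F) = ((i + n + 1 : ℕ) : F) := C_injective h2
    have h4 : j = i + n + 1 := by exact_mod_cast h3
    omega
  · intro h
    refine ⟨C (((j - i - 1 : ℕ) : F)), (nt_iff _).2 ⟨_, rfl⟩, ?_⟩
    have h2 : j = i + (j - i - 1) + 1 := by omega
    conv_lhs => rw [h2]
    push_cast [C_add, C_1]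
    rfl

theorem stp_iff (a s : F[X]) (m j : ℕ) : Stp X a s (C (m : F)) (C (j : F)) ↔
    s.eval ((j : F) + 1) = m * s.eval (j : F) + a.eval ((j : F) + 1) := by
  unfold Stp
  have e : (C (j : F) + 1 : F[X]) = C ((j : F) + 1) := by rw [C_add, C_1]
  simp only [ev_iff, e]
  constructor
  · rintro ⟨p, rfl, r, rfl, h⟩
    rw [← C_mul, ← C_add] at h
    exact (C_injective h).symm
  · intro h
    refine ⟨_, rfl, _, rfl, ?_⟩
    rw [← C_mul, ← C_add, h]

/-- a polynomial with given values at the natural numbers up to `n` -/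
theorem exists_interp (n : ℕ) (r : ℕ → F) : ∃ s : F[X], ∀ i, i ≤ n → s.eval (i : F) = r i := by
  classical
  refine ⟨Lagrange.interpolate (Finset.range (n + 1)) (fun i : ℕ => (i : F)) r, fun i hi => ?_⟩
  exact Lagrange.eval_interpolate_at_node (s := Finset.range (n + 1)) (v := fun i : ℕ => (i : F)) r
    (fun x _ y _ h => Nat.cast_injective h) (Finset.mem_range.2 (by omega))

theorem dle_iff (f : F[X]) (n : ℕ) : Dle X f (C (n : F)) ↔ f.natDegree ≤ n := by
  unfold Dle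
  constructor
  · rintro ⟨a, ha⟩
    -- the polynomial given by the Horner scheme
    set hp : ℕ → F[X] := fun k => Nat.rec (C (a.eval 0))
      (fun k q => X * q + C (a.eval ((k : F) + 1))) k with hhp
    have hp0 : hp 0 = C (a.eval 0) := rfl
    have hps : ∀ k, hp (k + 1) = X * hp k + C (a.eval ((k : F) + 1)) := fun k => rfl
    have hdeg : ∀ k, (hp k).natDegree ≤ k := by
      intro k
      induction k with
      | zero => rw [hp0, natDegree_C]
      | succ k ih =>
        rw [hps]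
        refine (natDegree_add_le _ _).trans (max_le ?_ (by rw [natDegree_C]; omega))
        refine natDegree_mul_le.trans ?_
        rw [natDegree_X]
        omega
    have hval : ∀ m : ℕ, f.eval (m : F) = (hp n).eval (m : F) := by
      intro m
      obtain ⟨s, ⟨u, hu1, hu2⟩, hs, w, hw1, hw2⟩ := ha (C (m : F)) ((nt_iff _).2 ⟨m, rfl⟩)
      have h0 : (0 : F[X]) = C (0 : F) := by rw [C_0]
      rw [h0, ev_iff] at hu1 hu2
      rw [ev_iff] at hw1 hw2
      have h1 : s.eval 0 = a.eval 0 := C_injective (hu1.symm.trans hu2)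
      have h2 : ∀ j : ℕ, j < n → s.eval ((j : F) + 1) = m * s.eval (j : F) +
          a.eval ((j : F) + 1) := fun j hj =>
        (stp_iff a s m j).1 (hs (C (j : F)) ((nt_iff _).2 ⟨j, rfl⟩) ((lt_iff j n).2 hj))
      have h3 : ∀ k : ℕ, k ≤ n → s.eval (k : F) = (hp k).eval (m : F) := by
        intro k
        induction k with
        | zero => intro _; rw [hp0, eval_C, Nat.cast_zero, h1]
        | succ k ih =>
          intro hk
          rw [Nat.cast_succ, h2 k (by omega), ih (by omega), hps]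
          simp
      have h4 : s.eval (n : F) = f.eval (m : F) := C_injective (hw1.symm.trans hw2)
      rw [← h4, h3 n le_rfl]
    have heq : f = hp n := by
      refine Polynomial.eq_of_infinite_eval_eq _ _ ?_
      refine Set.Infinite.mono (s := Set.range (fun m : ℕ => (m : F))) ?_
        (Set.infinite_range_of_injective Nat.cast_injective)
      rintro _ ⟨m, rfl⟩
      exact hval m
    rw [heq]
    exact hdeg n
  · intro hf
    obtain ⟨a, ha⟩ := exists_interp (F := F) n (fun j => f.coeff (n - j))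
    refine ⟨a, fun m' hm' => ?_⟩
    obtain ⟨m, rfl⟩ := (nt_iff m').1 hm'
    -- values of the Horner scheme
    set r : ℕ → F := fun k => ∑ i ∈ Finset.range (k + 1), f.coeff (n - i) * (m : F) ^ (k - i)
      with hr
    obtain ⟨s, hs⟩ := exists_interp (F := F) n r
    have h0 : (0 : F[X]) = C (0 : F) := by rw [C_0]
    refine ⟨s, ?_, ?_, ?_⟩
    · refine ⟨C (f.coeff n), ?_, ?_⟩
      · rw [h0, ev_iff]
        have := hs 0 (Nat.zero_le _)
        rw [Nat.cast_zero] at this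
        rw [this, hr]
        simp
      · rw [h0, ev_iff]
        have := ha 0 (Nat.zero_le _)
        rw [Nat.cast_zero] at this
        rw [this]
        simp
    · intro j' hj' hlt
      obtain ⟨j, rfl⟩ := (nt_iff j').1 hj'
      have hjn := (lt_iff j n).1 hlt
      rw [stp_iff]
      have e1 := hs (j + 1) hjn
      have e2 := hs j hjn.le
      have e3 := ha (j + 1) hjn
      rw [Nat.cast_succ] at e1 e3
      rw [e1, e2, e3, hr]
      simp only
      rw [Finset.sum_range_succ _ (j + 1), Finset.mul_sum]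
      congr 1
      · refine Finset.sum_congr rfl (fun i hi => ?_)
        have hi' := Finset.mem_range.1 hi
        rw [show j + 1 - i = (j - i) + 1 by omega, pow_succ]
        ring
      · simp
    · refine ⟨C (f.eval (m : F)), ?_, by rw [ev_iff]⟩
      rw [ev_iff, hs n le_rfl, hr]
      congr 1
      simp only
      rw [Polynomial.eval_eq_sum_range' (Nat.lt_succ_of_le hf),
        ← Finset.sum_range_reflect (fun i => f.coeff i * (m : F) ^ i)]
      refine Finset.sum_congr rfl (fun i hi => ?_)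
      have hi' := Finset.mem_range.1 hi
      rw [show n + 1 - 1 - i = n - i by omega]

theorem rd_iff (f g : F[X]) : Rd X f g ↔ f.degree = g.degree := by
  unfold Rd
  constructor
  · rintro ⟨h0, h⟩
    have h1 : ∀ n : ℕ, f.natDegree ≤ n ↔ g.natDegree ≤ n := by
      intro n
      rw [← dle_iff, ← dle_iff]
      exact h _ ((nt_iff _).2 ⟨n, rfl⟩)
    by_cases hf : f = 0
    · rw [hf, h0.1 hf]
    · have hg : g ≠ 0 := fun hg => hf (h0.2 hg)
      rw [degree_eq_natDegree hf, degree_eq_natDegree hg]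
      have h2 := (h1 g.natDegree).2 le_rfl
      have h3 := (h1 f.natDegree).1 le_rfl
      rw [le_antisymm h2 h3]
  · intro h
    have h1 : f.natDegree = g.natDegree := natDegree_eq_of_degree_eq h
    refine ⟨?_, ?_⟩
    · rw [← degree_eq_bot, ← degree_eq_bot, h]
    · intro n' hn'
      obtain ⟨n, rfl⟩ := (nt_iff n').1 hn'
      rw [dle_iff, dle_iff, h1]

/-- the relation of equal degree is definable in `F[X]` with the parameter `X` -/
theorem main [CompatibleRing F[X]] :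
    ({X} : Set F[X]).Definable₂ Language.ring {p | p.1.degree = p.2.degree} := by
  apply Dn.definable₂
  obtain ⟨φ, hφ⟩ := dn_rd (t := (X : F[X])) (A := {X}) rfl (Tn.var 0) (Tn.var 1)
  exact ⟨φ, fun v => (hφ v).trans (rd_iff (v 0) (v 1))⟩

end sem

end Pool.Agent.H412R3.Deg
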